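import Pool.Agent.Run7.h416.PlaneCaps
import Mathlib.Analysis.Convex.KreinMilman

/-!
# MP_6c3374_co: the exponent of `g(p)` is polynomial

`g p` is the least `n` such that every `n` points of the plane in general position, with the pairs
coloured in two colours, contain `p` points in convex position all of whose pairs have the same
colour.  We prove `g p ≤ (2p-2)^(2(p-2)^2+1)` for every `p ≥ 3`, that is
`log₂ (g p) ≤ (2(p-2)^2+1) log₂ (2p-2) = O(p² log p)`.
-/

open Finset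

namespace Pool.Agent.Results.MP_6c3374_co.PolynomialExponent

/-- No three distinct points of `P` are collinear. -/
def GeneralPosition (P : Finset (ℝ × ℝ)) : Prop :=
  ∀ a ∈ P, ∀ b ∈ P, ∀ c ∈ P, a ≠ b → b ≠ c → a ≠ c → ¬ Collinear ℝ {a, b, c}

/-- Every point of `S` is a vertex (extreme point) of the convex hull of `S`. -/
def ConvexPosition (S : Finset (ℝ × ℝ)) : Prop :=
  ∀ x ∈ S, x ∈ Set.extremePoints ℝ (convexHull ℝ (S : Set (ℝ × ℝ)))

/-- Every set of `n` points in general position and every colouring `χ` of the pairs of points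
with two colours has `p` points in convex position all of whose pairs have one colour. -/
def Forces (p n : ℕ) : Prop :=
  ∀ P : Finset (ℝ × ℝ), P.card = n → GeneralPosition P → ∀ χ : Sym2 (ℝ × ℝ) → Bool,
    ∃ S ⊆ P, S.card = p ∧ ConvexPosition S ∧
      ∃ c : Bool, ∀ a ∈ S, ∀ b ∈ S, a ≠ b → χ s(a, b) = c

/-- The least `n` with the property `Forces p n`. -/
noncomputable def g (p : ℕ) : ℕ := sInf {n | Forces p n}

/-- a finite set none of whose points lies in the hull of the others is in convex position -/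
theorem convexPosition_of_notMem {S : Finset (ℝ × ℝ)}
    (h : ∀ x ∈ S, x ∉ convexHull ℝ ((S.erase x : Finset (ℝ × ℝ)) : Set (ℝ × ℝ))) :
    ConvexPosition S := by
  intro x hx
  by_contra hcon
  have hcomp : IsCompact (convexHull ℝ (S : Set (ℝ × ℝ))) := Set.Finite.isCompact_convexHull (𝕜 := ℝ) S.finite_toSet
  have h1 := closure_convexHull_extremePoints hcomp (convex_convexHull ℝ (S : Set (ℝ × ℝ)))
  have h2 : Set.extremePoints ℝ (convexHull ℝ (S : Set (ℝ × ℝ))) ⊆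
      ((S.erase x : Finset (ℝ × ℝ)) : Set (ℝ × ℝ)) := by
    intro y hy
    have hyS : y ∈ (S : Set (ℝ × ℝ)) := extremePoints_convexHull_subset hy
    rw [Finset.mem_coe, Finset.mem_erase]
    exact ⟨fun e => hcon (e ▸ hy), hyS⟩
  have h3 : closure (convexHull ℝ (Set.extremePoints ℝ (convexHull ℝ (S : Set (ℝ × ℝ))))) ⊆
      convexHull ℝ ((S.erase x : Finset (ℝ × ℝ)) : Set (ℝ × ℝ)) :=
    closure_minimal (convexHull_mono h2) (Set.Finite.isClosed_convexHull (𝕜 := ℝ) (S.erase x).finite_toSet)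
  rw [h1] at h3
  exact h x hx (h3 (subset_convexHull ℝ _ hx))

/-- The main combinatorial bound in the plane. -/
theorem exists_of_card_le (n : ℕ) (P : Finset (ℝ × ℝ)) (hP : GeneralPosition P)
    (hcard : (2 * (n + 1)) ^ (2 * n ^ 2 + 1) ≤ P.card) (χ : Sym2 (ℝ × ℝ) → Bool) :
    ∃ S ⊆ P, S.card = n + 2 ∧ ConvexPosition S ∧
      ∃ c : Bool, ∀ a ∈ S, ∀ b ∈ S, a ≠ b → χ s(a, b) = c := by
  classical
  set Q : Finset (ℝ ×ₗ ℝ) := P.map ⟨toLex, toLex.injective⟩ with hQ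
  have hQmem : ∀ z : ℝ ×ₗ ℝ, z ∈ Q ↔ (ofLex z : ℝ × ℝ) ∈ P := by
    intro z
    rw [hQ, Finset.mem_map]
    constructor
    · rintro ⟨y, hy, rfl⟩
      exact hy
    · intro hz
      exact ⟨ofLex z, hz, rfl⟩
  have hQc : Q.card = P.card := Finset.card_map _
  let T : ℝ ×ₗ ℝ → ℝ ×ₗ ℝ → ℝ ×ₗ ℝ → Prop := fun a b d =>
    Run7.h416.PC.cross (ofLex b - ofLex a) (ofLex d - ofLex b) < 0
  have hne0 : ∀ a ∈ Q, ∀ b ∈ Q, ∀ d ∈ Q, a < b → b < d →
      Run7.h416.PC.cross (ofLex b - ofLex a) (ofLex d - ofLex b) ≠ 0 := by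
    intro a ha b hb d hd hab hbd h0
    have h1 : (ofLex a : ℝ × ℝ) ≠ ofLex b := fun e => hab.ne (ofLex.injective e)
    have h2 : (ofLex b : ℝ × ℝ) ≠ ofLex d := fun e => hbd.ne (ofLex.injective e)
    have h3 : (ofLex a : ℝ × ℝ) ≠ ofLex d := fun e => (hab.trans hbd).ne (ofLex.injective e)
    exact hP _ ((hQmem a).mp ha) _ ((hQmem b).mp hb) _ ((hQmem d).mp hd) h1 h2 h3
      (Run7.h416.PC.collinear_of_cross_eq_zero h1 h0)
  have hpos : ∀ a ∈ Q, ∀ b ∈ Q, ∀ d ∈ Q, a < b → b < d → ¬ T a b d →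
      0 < Run7.h416.PC.cross (ofLex b - ofLex a) (ofLex d - ofLex b) := by
    intro a ha b hb d hd hab hbd hT
    exact lt_of_le_of_ne (not_lt.mp hT) (hne0 a ha b hb d hd hab hbd).symm
  obtain ⟨B, hBQ, hBc, c, hB⟩ := Run7.h416.HC.main (P := Q)
    (fun a b => χ s((ofLex a : ℝ × ℝ), ofLex b)) T
    (fun a _ b _ x _ y _ hab hbx hxy h1 h2 => Run7.h416.PC.cap_trans hab hbx hxy h1 h2)
    (fun a ha b hb x hx y hy hab hbx hxy h1 h2 => not_lt.mpr
      (Run7.h416.PC.cup_trans hab hbx hxy (hpos a ha b hb x hx hab hbx h1)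
        (hpos b hb x hx y hy hbx hxy h2)).le)
    n (hQc ▸ hcard)
  have key : ∃ ε : ℝ, (∀ a ∈ B, ∀ b ∈ B, ∀ d ∈ B, a < b → b < d →
      0 < ε * Run7.h416.PC.cross (ofLex b - ofLex a) (ofLex d - ofLex b)) := by
    rcases hB with hB | hB
    · refine ⟨-1, fun a ha b hb d hd hab hbd => ?_⟩
      have : Run7.h416.PC.cross (ofLex b - ofLex a) (ofLex d - ofLex b) < 0 :=
        hB.2 a ha b hb d hd hab hbd
      linarith
    · refine ⟨1, fun a ha b hb d hd hab hbd => ?_⟩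
      have := hpos a (hBQ ha) b (hBQ hb) d (hBQ hd) hab hbd (hB.2 a ha b hb d hd hab hbd)
      linarith
  obtain ⟨ε, hε⟩ := key
  have hcol : ∀ a ∈ B, ∀ b ∈ B, a < b → χ s((ofLex a : ℝ × ℝ), ofLex b) = c := by
    rcases hB with hB | hB
    · exact hB.1
    · exact hB.1
  refine ⟨B.image (fun z => (ofLex z : ℝ × ℝ)), ?_, ?_, ?_, c, ?_⟩
  · intro y hy
    obtain ⟨z, hz, rfl⟩ := Finset.mem_image.mp hy
    exact (hQmem z).mp (hBQ hz)
  · rw [Finset.card_image_of_injective _ ofLex.injective, hBc]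
  · apply convexPosition_of_notMem
    intro y hy
    obtain ⟨z, hz, rfl⟩ := Finset.mem_image.mp hy
    have h1 := Run7.h416.PC.notMem_hull hε hz
    have h2 : (B.erase z).image (fun z => (ofLex z : ℝ × ℝ)) =
        (B.image (fun z => (ofLex z : ℝ × ℝ))).erase (ofLex z) := by
      rw [Finset.image_erase ofLex.injective]
    rwa [h2] at h1
  · intro a ha b hb hab
    obtain ⟨x, hx, rfl⟩ := Finset.mem_image.mp ha
    obtain ⟨y, hy, rfl⟩ := Finset.mem_image.mp hb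
    have hxy : x ≠ y := fun e => hab (e ▸ rfl)
    rcases lt_or_gt_of_ne hxy with h | h
    · exact hcol x hx y hy h
    · rw [Sym2.eq_swap]
      exact hcol y hy x hx h

/-- **Main theorem.** For every `p ≥ 3` the number `g p` is well defined and at most
`(2p-2)^(2(p-2)^2+1)`; in particular `log₂ (g p) ≤ (2(p-2)^2+1) log₂ (2p-2)`. -/
theorem result : ∀ p : ℕ, 3 ≤ p →
    Forces p (g p) ∧ g p ≤ (2 * p - 2) ^ (2 * (p - 2) ^ 2 + 1) ∧
      Real.logb 2 (g p) ≤ (2 * ((p : ℝ) - 2) ^ 2 + 1) * Real.logb 2 (2 * (p : ℝ) - 2) := by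
  intro p hp
  obtain ⟨n, rfl⟩ : ∃ n, p = n + 2 := ⟨p - 2, by omega⟩
  have hn : 1 ≤ n := by omega
  have e1 : 2 * (n + 2) - 2 = 2 * (n + 1) := by omega
  have e2 : n + 2 - 2 = n := by omega
  have hF : Forces (n + 2) ((2 * (n + 1)) ^ (2 * n ^ 2 + 1)) := by
    intro P hPc hP χ
    exact exists_of_card_le n P hP hPc.ge χ
  have hmem : g (n + 2) ∈ {m | Forces (n + 2) m} := Nat.sInf_mem ⟨_, hF⟩
  have hle : g (n + 2) ≤ (2 * (n + 1)) ^ (2 * n ^ 2 + 1) := Nat.sInf_le hF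
  refine ⟨hmem, by rw [e1, e2]; exact hle, ?_⟩
  push_cast
  have e3 : (2 * ((n : ℝ) + 2) - 2) = 2 * (n + 1) := by ring
  have e4 : ((n : ℝ) + 2 - 2) = n := by ring
  rw [e3, e4]
  have hb : (1 : ℝ) ≤ 2 * (n + 1) := by
    have : (0 : ℝ) ≤ n := Nat.cast_nonneg n
    linarith
  have hlog0 : 0 ≤ Real.logb 2 (2 * ((n : ℝ) + 1)) := Real.logb_nonneg (by norm_num) hb
  rcases Nat.eq_zero_or_pos (g (n + 2)) with h0 | h0
  · rw [h0]
    simp only [Nat.cast_zero, Real.logb_zero]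
    positivity
  · have h1 : ((g (n + 2) : ℕ) : ℝ) ≤ (2 * ((n : ℝ) + 1)) ^ (2 * n ^ 2 + 1) := by
      exact_mod_cast hle
    have h2 : Real.logb 2 (g (n + 2)) ≤ Real.logb 2 ((2 * ((n : ℝ) + 1)) ^ (2 * n ^ 2 + 1)) :=
      Real.logb_le_logb_of_le (by norm_num) (by exact_mod_cast h0) h1
    rw [Real.logb_pow] at h2
    refine h2.trans (le_of_eq ?_)
    push_cast
    ring

end Pool.Agent.Results.MP_6c3374_co.PolynomialExponent
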